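import Pool.Agent.Helper85.PCP.Stmts

/-! # Module HLT: a halting active symbol stops the item machine -/

namespace PCP4

theorem hlt_append (A : ℕ) (W W' : List (Option ℕ)) :
    letters A (W ++ W') = letters A W ++ letters A W' := List.flatMap_append

theorem hlt_replicate (A n : ℕ) :
    letters A (List.replicate n none) = List.replicate n true := by
  induction n with
  | zero => rfl
  | succ n ih =>
    rw [List.replicate_succ, List.replicate_succ, ← ih]
    rfl

theorem hlt_cons (A : ℕ) (t : Option ℕ) (W : List (Option ℕ)) :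
    letters A (t :: W) = lt1 A t ++ letters A W := rfl

theorem hlt_tokrep (A n : ℕ) : TokOk A (List.replicate n none) := by
  intro τ h
  have := List.eq_of_mem_replicate h
  exact absurd this (by simp)

theorem hlt_tokapp (A : ℕ) (W W' : List (Option ℕ)) (h : TokOk A W) (h' : TokOk A W') :
    TokOk A (W ++ W') := by
  intro τ hτ
  rcases List.mem_append.mp hτ with h1 | h1
  · exact h τ h1
  · exact h' τ h1

theorem hlt_comp {α : Type} (F : α → α) (x y z : α) (n m : ℕ) (h1 : F^[n] x = y)
    (h2 : F^[m] y = z) : F^[m + n] x = z := by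
  rw [Function.iterate_add_apply, h1, h2]

theorem hlt_ihalt (m : ℕ) (tr : ℕ → List Bool) (st st' : ℕ × List Bool) (n : ℕ)
    (h1 : (istep m tr)^[n] st = st') (h2 : IHalt m tr st') : IHalt m tr st := by
  obtain ⟨k, hk⟩ := h2
  refine ⟨k + n, ?_⟩
  rw [Function.iterate_add_apply, h1]
  exact hk

/-- the item machine on a list of tokens whose symbols have productions -/
theorem hlt_run (hTOK : ST_TOK) (hWACT : ST_WACT) (V s A : ℕ) (P : ℕ → Option (List ℕ))
    (D' : List ℕ) (a b : ℕ) (hV : VOk V s A P D' a b) (W : List (Option ℕ)) :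
    ∀ κ < V, TokOk A W → (∀ x ∈ W.reduceOption, P x ≠ none) → ∀ Q : List Bool,
      ∃ n, ∃ κ' < V, ∃ W' : List (Option ℕ), TokOk A W' ∧
        (istep (V * nu A) (trk V s A P D' a b))^[n] (2 * A + κ * nu A, letters A W ++ Q) =
          (2 * A + κ' * nu A, Q ++ letters A W') := by
  obtain ⟨h1, h2, h3, -⟩ := hTOK V s A P D' a b hV
  induction W with
  | nil =>
    intro κ hκ _ _ Q
    refine ⟨0, κ, hκ, [], fun τ h => absurd h (by simp), ?_⟩
    show (2 * A + κ * nu A, [] ++ Q) = (2 * A + κ * nu A, Q ++ [])
    rw [List.nil_append, List.append_nil]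
  | cons t W ih =>
    intro κ hκ hW hP Q
    have hW' : TokOk A W := fun τ h => hW τ (List.mem_cons_of_mem _ h)
    have hP' : ∀ x ∈ W.reduceOption, P x ≠ none := by
      intro x hx
      apply hP
      cases t with
      | none => exact hx
      | some τ => exact List.mem_cons_of_mem _ hx
    -- one token
    have key : ∃ n1, ∃ κ1 < V, ∃ W1 : List (Option ℕ), TokOk A W1 ∧
        (istep (V * nu A) (trk V s A P D' a b))^[n1]
          (2 * A + κ * nu A, lt1 A t ++ (letters A W ++ Q)) =
          (2 * A + κ1 * nu A, (letters A W ++ Q) ++ letters A W1) := by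
      cases t with
      | none =>
        refine ⟨1, κ, hκ, List.replicate (1 + (V * nu A - 1) * s) none, hlt_tokrep _ _, ?_⟩
        rw [hlt_replicate, Function.iterate_one]
        exact h1 κ hκ _
      | some τ =>
        have hτ : τ < A := hW τ (List.mem_cons_self)
        cases κ with
        | zero =>
          have hPτ : P τ ≠ none := hP τ (List.mem_cons_self)
          obtain ⟨p, hp⟩ := Option.ne_none_iff_exists'.mp hPτ
          refine ⟨nu A + 1, V - 1, by omega, Wact V s A p,
            (hWACT V s A P D' a b hV τ hτ p hp).2.2.1, ?_⟩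
          have := h3 τ hτ p hp (letters A W ++ Q)
          rw [Nat.zero_mul, Nat.add_zero]
          exact this
        | succ κ =>
          refine ⟨nu A + 1, κ, by omega, List.replicate (1 + (V * nu A - 1) * s) none,
            hlt_tokrep _ _, ?_⟩
          rw [hlt_replicate]
          exact h2 κ hκ τ hτ _
    obtain ⟨n1, κ1, hκ1, W1, hW1, hn1⟩ := key
    obtain ⟨n2, κ2, hκ2, W2, hW2, hn2⟩ := ih κ1 hκ1 hW' hP' (Q ++ letters A W1)
    refine ⟨n2 + n1, κ2, hκ2, W1 ++ W2, hlt_tokapp A _ _ hW1 hW2, ?_⟩
    rw [hlt_cons, List.append_assoc]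
    apply hlt_comp _ _ _ _ _ _ hn1
    rw [List.append_assoc, hn2, hlt_append, List.append_assoc]

theorem st_HLT (hTOK : ST_TOK) (hODD : ST_ODD) (hWACT : ST_WACT) : ST_HLT := by
  intro V s A P D' a b hV W hW hH
  obtain ⟨h1, h2, h3, h4⟩ := hTOK V s A P D' a b hV
  have hVpos : 3 ≤ V := hV.hV
  have hA := hV.hA
  -- leading dummies
  have hsplit : ∀ W : List (Option ℕ), TokOk A W → CHalt P (0, W.reduceOption) →
      ∀ Q : List Bool, (∃ k, Q = List.replicate k true) →
      ∃ n τ, ∃ R : List (Option ℕ), TokOk A (some τ :: R) ∧ P τ = none ∧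
        (∀ x ∈ R.reduceOption, P x ≠ none) ∧ ∃ k,
        (istep (V * nu A) (trk V s A P D' a b))^[n] (2 * A, letters A W ++ Q) =
          (2 * A, letters A (some τ :: R) ++ List.replicate k true) := by
    intro W
    induction W with
    | nil =>
      rintro - ⟨τ, D, h, -⟩
      have h5 := congrArg Prod.snd h
      exact absurd h5 (by simp)
    | cons t W ih =>
      intro hW hH Q hQ
      cases t with
      | none =>
        have hW' : TokOk A W := fun τ h => hW τ (List.mem_cons_of_mem _ h)
        obtain ⟨k, hk⟩ := hQ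
        obtain ⟨n, τ, R, hR1, hR2, hR3, k', hn⟩ := ih hW' hH
          (Q ++ List.replicate (1 + (V * nu A - 1) * s) true)
          ⟨k + (1 + (V * nu A - 1) * s), by rw [hk, List.replicate_append_replicate]⟩
        refine ⟨n + 1, τ, R, hR1, hR2, hR3, k', ?_⟩
        apply hlt_comp _ _ _ _ _ _ _ hn
        rw [Function.iterate_one]
        have h5 := h1 0 (by omega) (letters A W ++ Q)
        rw [Nat.zero_mul, Nat.add_zero, List.append_assoc] at h5
        exact h5
      | some τ =>
        obtain ⟨k, hk⟩ := hQ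
        obtain ⟨τ', D, h, hP1, hP2⟩ := hH
        have h5 : τ :: W.reduceOption = τ' :: D := congrArg Prod.snd h
        injection h5 with h6 h7
        refine ⟨0, τ, W, hW, ?_, ?_, k, ?_⟩
        · rw [h6]; exact hP1
        · rw [h7]; exact hP2
        · rw [hk]
          rfl
  obtain ⟨n1, τ, R, hR1, hR2, hR3, k, hn1⟩ := hsplit W hW hH [] ⟨0, rfl⟩
  rw [List.append_nil] at hn1
  apply hlt_ihalt _ _ _ _ _ hn1
  have hτ : τ < A := hR1 τ (List.mem_cons_self)
  have hR : TokOk A R := fun τ h => hR1 τ (List.mem_cons_of_mem _ h)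
  -- the halting symbol
  have h5 := h4 τ hτ hR2 (letters A R ++ List.replicate k true)
  rw [hlt_cons, List.append_assoc]
  apply hlt_ihalt _ _ _ _ _ h5
  -- the rest
  have hR' : TokOk A (R ++ List.replicate k none) := hlt_tokapp A _ _ hR (hlt_tokrep A k)
  have hred : (R ++ List.replicate k none).reduceOption = R.reduceOption := by
    rw [List.reduceOption_append, List.reduceOption_replicate_none, List.append_nil]
  obtain ⟨n2, κ, hκ, W', hW', hn2⟩ := hlt_run hTOK hWACT V s A P D' a b hV
    (R ++ List.replicate k none) (V - 1) (by omega) hR' (by rw [hred]; exact hR3)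
    (false :: List.replicate (1 + (V * nu A - 1) * s) true)
  rw [hlt_append, hlt_replicate] at hn2
  apply hlt_ihalt _ _ _ _ _ hn2
  -- the odd c
  have h6 : (istep (V * nu A) (trk V s A P D' a b))^[1]
      (2 * A + κ * nu A, false :: List.replicate (1 + (V * nu A - 1) * s) true ++ letters A W') =
      (2 * A + κ * nu A - 1,
        letters A (List.replicate (1 + (V * nu A - 1) * s) none ++ W') ++ []) := by
    rw [Function.iterate_one, hlt_append, hlt_replicate, List.append_nil]
    show (if 2 * A + κ * nu A = 0 then _ else _) = _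
    rw [if_neg (by omega)]
    rfl
  apply hlt_ihalt _ _ _ _ _ h6
  have hnu : nu A = 4 * A + 2 := rfl
  have hlt : 2 * A + κ * nu A - 1 < V * nu A := by
    have h7 : κ * nu A + nu A ≤ V * nu A := by
      rw [← Nat.succ_mul]
      exact Nat.mul_le_mul_right _ hκ
    omega
  have hodd : (2 * A + κ * nu A - 1) % 2 = 1 := by
    have h7 : κ * nu A = 2 * (κ * (2 * A + 1)) := by rw [hnu]; ring
    omega
  obtain ⟨n3, φ', -, -, R2, hR2', hn3⟩ := hODD V s A P D' a b hV
    (List.replicate (1 + (V * nu A - 1) * s) none ++ W')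
    (hlt_tokapp A _ _ (hlt_tokrep A _) hW') _ hlt hodd []
  refine ⟨n3, ?_⟩
  rw [hn3]
  exact hR2'

end PCP4
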